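import Pool.Agent.Helper72.LR.Rank

/-!
# The machine for sums of polynomials which become determinants of bounded size
-/

set_option autoImplicit false
set_option linter.unusedSectionVars false

namespace Pool.Agent.Helper72.LR

open Finset MvPolynomial Pool.SDL Pool.Agent.SDet Pool.Agent.Helper76.CDET
open scoped ENNReal BigOperators

variable {F : Type} [Field F] {V Ya Xt Yt C : Type} [DecidableEq V]

/-- The machine, if every summand becomes the determinant of an affine `m × m` matrix. -/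
theorem machine_mat [Fintype V] [Fintype Xt] [Finite C]
    (f : MvPolynomial (V ⊕ Ya) F) (hml : ∀ μ ∈ f.support, ∀ e, μ (Sum.inl e) ≤ 1)
    (P : Finset V → Prop) (hP : ∀ S, restr S f ≠ 0 ↔ P S)
    (κ : V → Option (Option (Xt ⊕ Yt))) {D : ℕ} (yc : C → Fin D → Yt)
    (hyc : ∀ c, Function.Injective (yc c)) (M : C → Xt → ℕ) (B : ℕ) (hB : ∀ c, ∑ x, M c x = B)
    (h1 : ∀ c (S : Finset V), P S → (∀ e ∈ S, κ e ≠ none) →
      (∀ e ∈ S, ∀ z, κ e = some (some (Sum.inr z)) → z ∈ Set.range (yc c)) →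
      (∀ x, M c x ≤ cnt κ S (Sum.inl x)) ∧ ∀ b, 1 ≤ cnt κ S (Sum.inr (yc c b)))
    (h2 : ∀ c, ∃ S : Finset V, P S ∧ (∀ e ∈ S, κ e ≠ none) ∧ Hits κ (M c) (yc c) S)
    (h3 : ∀ c (S S' : Finset V), P S → P S' → (∀ e ∈ S, κ e ≠ none) → (∀ e ∈ S', κ e ≠ none) →
      Hits κ (M c) (yc c) S → Hits κ (M c) (yc c) S' →
      (∀ e, κ e = some none → (e ∈ S ↔ e ∈ S')) → S = S')
    {r m : ℕ} (g : Fin r → MvPolynomial (V ⊕ Ya) F) (hg : f = ∑ i, g i)
    (hmat : ∀ i, ∃ A' : Matrix (Fin m) (Fin m) (MvPolynomial (Xt ⊕ Yt) (Lf F (V ⊕ Ya))),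
      (∀ p q, (A' p q).totalDegree ≤ 1) ∧
        A'.det = Psi F (Pool.Agent.Helper76.CDET.ext Ya κ) (g i))
    (Q : ℝ≥0∞) (hQ : Q < 1)
    [DecidablePred fun u : Xt → ℕ => ∃ c, ∀ x, M c x ≤ u x] :
    (1 - Q) ^ Fintype.card Xt *
      ∑' u : Xt → ℕ, (if ∃ c, ∀ x, M c x ≤ u x then Q ^ (∑ x, u x) else 0) ≤
    Q ^ B * (r * (∑ g : Fin (m - D) ↪o Fin m, (1 - Q) ^ rho g) ^ 2) := by
  classical
  obtain ⟨hlow, hself⟩ := machine_terms f hml P hP κ yc hyc M h1 h2 h3
  choose A' hA' hdet using hmat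
  set G : C → MvPolynomial Xt (Lf F (V ⊕ Ya)) :=
    fun c => Dc (yc c) (Psi F (Pool.Agent.Helper76.CDET.ext Ya κ) f) with hG
  have hL : ∀ c, G c ∈ ⨆ i, detSpan ((A' i).map (eps0 (Lf F (V ⊕ Ya)) Xt Yt)) (m - D) := by
    intro c
    rw [hG]
    simp only
    rw [hg, map_sum, Dc_sum]
    refine Submodule.sum_mem _ fun i _ => ?_
    rw [← hdet i]
    exact Submodule.mem_iSup_of_mem i (Dc_det_mem (yc c) (A' i) (hA' i))
  have hAff : ∀ i p q, (((A' i).map (eps0 (Lf F (V ⊕ Ya)) Xt Yt)) p q).totalDegree ≤ 1 := by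
    intro i p q
    rw [Matrix.map_apply]
    exact (eps0_totalDegree _).trans (hA' i p q)
  have hMdeg : ∀ c, (Finsupp.equivFunOnFinite.symm (M c) : Xt →₀ ℕ).degree = B := by
    intro c
    rw [Finsupp.degree_eq_sum]
    exact hB c
  have hmain := compare G (fun c => (Finsupp.equivFunOnFinite.symm (M c) : Xt →₀ ℕ)) B hMdeg
    hlow hself _ hAff hL Q hQ
  refine le_trans (le_of_eq ?_) hmain
  congr 1
  refine tsum_congr fun u => ?_
  by_cases h : ∃ c, ∀ x, M c x ≤ u x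
  · rw [if_pos h, if_pos (by exact h)]
  · rw [if_neg h, if_neg (by exact h)]

/-- The machine for words. -/
theorem machine_words_mat {α : Type} [Fintype V] [Fintype α] [DecidableEq α]
    (f : MvPolynomial (V ⊕ Ya) F) (hml : ∀ μ ∈ f.support, ∀ e, μ (Sum.inl e) ≤ 1)
    (P : Finset V → Prop) (hP : ∀ S, restr S f ≠ 0 ↔ P S) {D l B : ℕ}
    (X : ((Fin D × Bool) × Fin l) × (α × Fin B) → V)
    (Y : Fin D × (Fin l → α) × (Fin l → α) → V) (Z : Finset V)
    (hinj : Function.Injective (Sum.elim X Y)) (hX : ∀ x, X x ∉ Z) (hY : ∀ y, Y y ∉ Z)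
    (h1 : ∀ (c : Fin D × Bool → Fin l → α) (S : Finset V), P S →
      (∀ e ∈ S, e ∈ Z ∨ (∃ x, e = X x) ∨ ∃ b, e = Y (b, c (b, false), c (b, true))) →
      (∀ h i j, X ((h, i), (c h i, j)) ∈ S) ∧ ∀ b, Y (b, c (b, false), c (b, true)) ∈ S)
    (h2 : ∀ c : Fin D × Bool → Fin l → α, ∃ S : Finset V, P S ∧
      ∀ e ∈ S, e ∈ Z ∨ (∃ h i j, e = X ((h, i), (c h i, j))) ∨
        ∃ b, e = Y (b, c (b, false), c (b, true)))
    {r m : ℕ} (g : Fin r → MvPolynomial (V ⊕ Ya) F) (hg : f = ∑ i, g i)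
    (hmat : ∀ κ : V → Option (Option ((((Fin D × Bool) × Fin l) × (α × Fin B)) ⊕
        (Fin D × (Fin l → α) × (Fin l → α)))),
      (∀ e e' v, κ e = some (some v) → κ e' = some (some v) → e = e') →
      ∀ i, ∃ A' : Matrix (Fin m) (Fin m) (MvPolynomial ((((Fin D × Bool) × Fin l) × (α × Fin B)) ⊕
        (Fin D × (Fin l → α) × (Fin l → α))) (Lf F (V ⊕ Ya))),
      (∀ p q, (A' p q).totalDegree ≤ 1) ∧
        A'.det = Psi F (Pool.Agent.Helper76.CDET.ext Ya κ) (g i))
    (Q : ℝ≥0∞) (hQ : Q < 1) :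
    (1 - (1 - Q ^ B) ^ Fintype.card α) ^ (2 * D * l) ≤
      Q ^ (2 * D * l * B) * (r * (∑ g : Fin (m - D) ↪o Fin m, (1 - Q) ^ rho g) ^ 2) := by
  classical
  set κ := kap X Y Z with hκ
  let yc : (Fin D × Bool → Fin l → α) → Fin D → Fin D × (Fin l → α) × (Fin l → α) :=
    fun c b => (b, c (b, false), c (b, true))
  have hyc : ∀ c, Function.Injective (yc c) := by
    intro c b b' h
    exact (Prod.ext_iff.1 h).1
  let M : (Fin D × Bool → Fin l → α) → ((Fin D × Bool) × Fin l) × (α × Fin B) → ℕ :=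
    fun c x => if x.2.1 = c x.1.1 x.1.2 then 1 else 0
  have hB : ∀ c, ∑ x, M c x = 2 * D * l * B := by
    intro c
    rw [Fintype.sum_prod_type]
    simp only [M]
    have h3 : ∀ p : (Fin D × Bool) × Fin l,
        ∑ y : α × Fin B, (if y.1 = c p.1 p.2 then 1 else 0) = B := by
      intro p
      rw [Fintype.sum_prod_type]
      have h4 : ∀ x : α, ∑ _y : Fin B, (if x = c p.1 p.2 then 1 else 0) =
          if x = c p.1 p.2 then B else 0 := by
        intro x
        split_ifs <;> simp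
      rw [Finset.sum_congr rfl fun x _ => h4 x, Finset.sum_ite_eq' Finset.univ (c p.1 p.2),
        if_pos (Finset.mem_univ _)]
    rw [Finset.sum_congr rfl fun p _ => h3 p, Finset.sum_const, Finset.card_univ, smul_eq_mul]
    simp only [Fintype.card_prod, Fintype.card_fin, Fintype.card_bool]
    ring
  have hmain := machine_mat f hml P hP κ yc hyc M _ hB
    (by
      intro c S hS hd hy
      have h4 := h1 c S hS (by
        intro e he
        rcases (kap_ne_none X Y Z hinj e).1 (hd e he) with ⟨x, rfl⟩ | ⟨y, rfl⟩ | hz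
        · exact Or.inr (Or.inl ⟨x, rfl⟩)
        · obtain ⟨b, hb⟩ := hy _ he y (kap_Y X Y Z hinj y)
          exact Or.inr (Or.inr ⟨b, by rw [← hb]⟩)
        · exact Or.inl hz)
      constructor
      · rintro ⟨⟨h, i⟩, ⟨a, j⟩⟩
        simp only [M]
        split_ifs with h5
        · subst h5
          rw [hκ, cnt_X X Y Z hinj, if_pos (h4.1 h i j)]
        · exact Nat.zero_le _
      · intro b
        rw [hκ, cnt_Y X Y Z hinj, if_pos (h4.2 b)])
    (by
      intro c
      obtain ⟨S, hS, hS2⟩ := h2 c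
      have h4 := h1 c S hS (by
        intro e he
        rcases hS2 e he with hz | ⟨h, i, j, rfl⟩ | hb
        · exact Or.inl hz
        · exact Or.inr (Or.inl ⟨_, rfl⟩)
        · exact Or.inr (Or.inr hb))
      refine ⟨S, hS, ?_, ?_, ?_, ?_⟩
      · intro e he
        rw [hκ, kap_ne_none X Y Z hinj]
        rcases hS2 e he with hz | ⟨h, i, j, rfl⟩ | ⟨b, rfl⟩
        · exact Or.inr (Or.inr hz)
        · exact Or.inl ⟨_, rfl⟩
        · exact Or.inr (Or.inl ⟨_, rfl⟩)
      · rintro ⟨⟨h, i⟩, ⟨a, j⟩⟩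
        rw [hκ, cnt_X X Y Z hinj]
        simp only [M]
        by_cases h5 : a = c h i
        · subst h5
          rw [if_pos (h4.1 h i j), if_pos rfl]
        · rw [if_neg h5, if_neg]
          intro h6
          rcases hS2 _ h6 with hz | ⟨h', i', j', h7⟩ | ⟨b, h7⟩
          · exact hX _ hz
          · have h8 := @hinj (Sum.inl _) (Sum.inl _) h7
            simp only [Sum.inl.injEq, Prod.mk.injEq] at h8
            obtain ⟨⟨rfl, rfl⟩, rfl, -⟩ := h8
            exact h5 rfl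
          · have h8 := @hinj (Sum.inl _) (Sum.inr _) h7
            simp at h8
      · intro b
        rw [hκ, cnt_Y X Y Z hinj, if_pos (h4.2 b)]
      · intro y h5
        rw [hκ, cnt_Y X Y Z hinj, if_neg]
        intro h6
        rcases hS2 _ h6 with hz | ⟨h', i', j', h7⟩ | ⟨b, h7⟩
        · exact hY _ hz
        · have h8 := @hinj (Sum.inr _) (Sum.inl _) h7
          simp at h8
        · have h8 := @hinj (Sum.inr _) (Sum.inr _) h7
          simp only [Sum.inr.injEq] at h8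
          exact h5 ⟨b, h8.symm⟩)
    (by
      intro c S S' _ _ hd hd' hh hh' hfree
      refine uniq_of_injective κ ?_ S S' hd hd' ?_ hfree
      · intro e e' v h h'
        rcases v with x | y
        · rw [hκ, kap_eq_inl X Y Z hinj] at h h'
          rw [h, h']
        · rw [hκ, kap_eq_inr X Y Z hinj] at h h'
          rw [h, h']
      · intro v
        rw [tgt_of_hits κ _ _ (hyc c) S hh, tgt_of_hits κ _ _ (hyc c) S' hh'])
    g hg (hmat κ (by
      intro e e' v h h'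
      rcases v with x | y
      · rw [hκ, kap_eq_inl X Y Z hinj] at h h'
        rw [h, h']
      · rw [hκ, kap_eq_inr X Y Z hinj] at h h'
        rw [h, h'])) Q hQ
  refine le_trans (le_of_eq ?_) hmain
  have h5 := series_all (P := (Fin D × Bool) × Fin l) (α := α) (S := Fin B) Q hQ
  rw [Fintype.card_fin] at h5
  have h6 : Fintype.card ((Fin D × Bool) × Fin l) = 2 * D * l := by
    simp only [Fintype.card_prod, Fintype.card_fin, Fintype.card_bool]
    ring
  rw [h6] at h5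
  rw [← h5]
  congr 1
  refine tsum_congr fun u => ?_
  have h7 : (∃ c : Fin D × Bool → Fin l → α, ∀ x, M c x ≤ u x) ↔
      ∀ p, ∃ e, ∀ s, 1 ≤ u (p, (e, s)) := by
    constructor
    · rintro ⟨c, hc⟩ ⟨h, i⟩
      refine ⟨c h i, fun s => ?_⟩
      have h8 := hc ((h, i), (c h i, s))
      simpa [M] using h8
    · intro h8
      choose c hc using h8
      refine ⟨fun h i => c (h, i), ?_⟩
      rintro ⟨⟨h, i⟩, ⟨a, j⟩⟩
      simp only [M]
      split_ifs with h9
      · subst h9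
        exact hc (h, i) j
      · exact Nat.zero_le _
  by_cases h8 : ∀ p, ∃ e, ∀ s, 1 ≤ u (p, (e, s))
  · rw [if_pos h8, if_pos (h7.2 h8)]
  · rw [if_neg h8, if_neg (fun h9 => h8 (h7.1 h9))]


/-- The machine for bits, for determinants of size at most `m` or of any size with low rank in
every variable. -/
theorem bits_lr [Fintype V]
    (f : MvPolynomial (V ⊕ Ya) F) (hml : ∀ μ ∈ f.support, ∀ e, μ (Sum.inl e) ≤ 1)
    (P : Finset V → Prop) (hP : ∀ S, restr S f ≠ 0 ↔ P S) {D l B : ℕ}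
    (X : ((Fin D × Bool) × Fin l) × (Bool × Fin B) → V)
    (Y : Fin D × (Fin l → Bool) × (Fin l → Bool) → V) (Z : Finset V)
    (hinj : Function.Injective (Sum.elim X Y)) (hX : ∀ x, X x ∉ Z) (hY : ∀ y, Y y ∉ Z)
    (h1 : ∀ (c : Fin D × Bool → Fin l → Bool) (S : Finset V), P S →
      (∀ e ∈ S, e ∈ Z ∨ (∃ x, e = X x) ∨ ∃ b, e = Y (b, c (b, false), c (b, true))) →
      (∀ h i j, X ((h, i), (c h i, j)) ∈ S) ∧ ∀ b, Y (b, c (b, false), c (b, true)) ∈ S)
    (h2 : ∀ c : Fin D × Bool → Fin l → Bool, ∃ S : Finset V, P S ∧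
      ∀ e ∈ S, e ∈ Z ∨ (∃ h i j, e = X ((h, i), (c h i, j))) ∨
        ∃ b, e = Y (b, c (b, false), c (b, true)))
    {r m ρ : ℕ} (s : Fin r → ℕ) (A : ∀ i, Matrix (Fin (s i)) (Fin (s i)) (MvPolynomial Ya F))
    (Bm : ∀ i, V → Matrix (Fin (s i)) (Fin (s i)) (MvPolynomial Ya F))
    (hs : ∀ i, s i ≤ m ∨ ∀ e, (Bm i e).rank ≤ ρ)
    (hf : f = ∑ i, (affM (A i) (Bm i)).det)
    (hm : (2 * D * l * (2 * B) + D * (2 ^ l * 2 ^ l)) * ρ ≤ m)
    (hDm : D < m) (q : ℝ) (hq0 : 0 < q) (hq1 : q < 1) :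
    (2 - q ^ B) ^ (2 * D * l) ≤ r *
      (∑ j ∈ Finset.range (D + 1), (Nat.choose (m - D - 1 + j) j : ℝ) * (1 - q) ^ j) ^ 2 := by
  have hcard : Fintype.card (((Fin D × Bool) × Fin l) × (Bool × Fin B)) +
      Fintype.card (Fin D × (Fin l → Bool) × (Fin l → Bool)) =
      2 * D * l * (2 * B) + D * (2 ^ l * 2 ^ l) := by
    simp only [Fintype.card_prod, Fintype.card_fin, Fintype.card_bool, Fintype.card_fun]
    ring
  have key := machine_words_mat f hml P hP X Y Z hinj hX hY h1 h2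
    (m := m) (fun i => (affM (A i) (Bm i)).det) hf (fun κ hκ i => by
      rcases hs i with h | h
      · exact exists_mat_small κ (A i) (Bm i) h
      · exact exists_mat_lr κ hκ (A i) (Bm i) h (by rw [hcard]; exact hm) (by omega))
    (ENNReal.ofReal q) (ofReal_lt_one hq1)
  rw [Fintype.card_bool] at key
  have h := ennreal_to_real 2 B (2 * D * l) (2 * D * l * B) r m D q hq0 hq1 (key.trans (by
    gcongr
    exact sum_rho_le hDm _))
  have h3 : (1 - (1 - q ^ B) ^ 2) ^ (2 * D * l) =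
      q ^ (2 * D * l * B) * (2 - q ^ B) ^ (2 * D * l) := by
    rw [mul_comm (2 * D * l) B, pow_mul q B, ← mul_pow]
    congr 1
    ring
  rw [h3] at h
  exact le_of_mul_le_mul_left h (pow_pos hq0 _)

end Pool.Agent.Helper72.LR
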