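import Pool.Agent.Helper72.CLQ.NumC

/-!
# Numerical part for determinants of any size with low rank in every variable
-/

set_option autoImplicit false

namespace Pool.Agent.Helper72.LR

open Real Finset Pool.Agent.Helper72.CLQ

theorem log_1e6_le : log (2000000 : ℝ) ≤ 15 := log_2e6_le

/-- The number of bits. -/
theorem exists_l {K M : ℝ} (hK : 1 ≤ K) (hM : 1 ≤ M) :
    ∃ l : ℕ, 4 ≤ l ∧ 87 * K * M * (l : ℝ) ^ 2 ≤ 2 ^ l ∧
      (2 : ℝ) ^ l ≤ 2000000 * K ^ 2 * (M * (1 + log M) ^ 2) ∧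
      (l : ℝ) ≤ 40 * sqrt K * (1 + log M) := by
  have hlM : 0 ≤ log M := log_nonneg hM
  set L := 1 + log M with hL
  have hL1 : 1 ≤ L := by linarith
  have hK2 : 1 ≤ K ^ 2 := by nlinarith
  have hML : 1 ≤ M * L ^ 2 := by nlinarith [mul_self_nonneg (L - 1)]
  have hx16 : (16 : ℝ) ≤ 1000000 * K ^ 2 * (M * L ^ 2) := by nlinarith
  obtain ⟨n0, hn1, hn2⟩ := exists_nat_pow_near (x := 1000000 * K ^ 2 * (M * L ^ 2)) (y := (2 : ℝ))
    (by linarith) (by norm_num)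
  obtain ⟨l, hl⟩ : ∃ l, l = n0 + 1 := ⟨_, rfl⟩
  rw [← hl] at hn2
  have h2l : (2 : ℝ) ^ l ≤ 2000000 * K ^ 2 * (M * L ^ 2) := by
    rw [hl, pow_succ]
    linarith
  have hl4 : 4 ≤ l := by
    by_contra hcon
    have h5 : (2 : ℝ) ^ l ≤ 2 ^ 4 := pow_le_pow_right₀ (by norm_num) (by omega)
    have h6 : (2 : ℝ) ^ 4 = 16 := by norm_num
    linarith
  have hl0 : (0 : ℝ) < l := by exact_mod_cast (by omega : 0 < l)
  have hK0 : 0 < K := by linarith
  have hM0 : 0 < M := by linarith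
  have hL0 : 0 < L := by linarith
  have hsK : 1 ≤ sqrt K := by
    rw [show (1 : ℝ) = sqrt 1 by simp]
    exact sqrt_le_sqrt hK
  have hsK2 : sqrt K ^ 2 = K := sq_sqrt hK0.le
  have hlL : (l : ℝ) ≤ 40 * sqrt K * L := by
    have h5 : (l : ℝ) * log 2 ≤ log (2000000 * K ^ 2 * (M * L ^ 2)) := by
      rw [← log_pow]
      exact log_le_log (by positivity) h2l
    rw [log_mul (by positivity) (by positivity), log_mul (by norm_num) (by positivity),
      log_mul hM0.ne' (by positivity), log_pow, log_pow] at h5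
    push_cast at h5
    have h6 := log_2e6_le
    have h7 := Real.log_le_sub_one_of_pos hL0
    have h8 := log_two_gt
    have h9 : (l : ℝ) * 0.69 ≤ l * log 2 := mul_le_mul_of_nonneg_left h8.le hl0.le
    have h10 := log_le_sqrt hK0
    have h11 : log M = L - 1 := by rw [hL]; ring
    have h12 : (l : ℝ) * 0.69 ≤ 15 + 2 * sqrt K + (L - 1) + 2 * (L - 1) := by linarith
    have h13 : sqrt K ≤ sqrt K * L := le_mul_of_one_le_right (by linarith) hL1
    have h14 : L ≤ sqrt K * L := le_mul_of_one_le_left hL0.le hsK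
    have h15 : (1 : ℝ) ≤ sqrt K * L := hL1.trans h14
    nlinarith
  refine ⟨l, hl4, ?_, h2l, hlL⟩
  have h16 : (l : ℝ) ^ 2 ≤ (40 * sqrt K * L) ^ 2 := pow_le_pow_left₀ hl0.le hlL 2
  have h17 : (40 * sqrt K * L) ^ 2 = 1600 * K * L ^ 2 := by
    rw [mul_pow, mul_pow, hsK2]
    ring
  rw [h17] at h16
  calc 87 * K * M * (l : ℝ) ^ 2 ≤ 87 * K * M * (1600 * K * L ^ 2) := by gcongr
    _ = 139200 * (K ^ 2 * (M * L ^ 2)) := by ring
    _ ≤ 1000000 * (K ^ 2 * (M * L ^ 2)) := by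
        have : 0 ≤ K ^ 2 * (M * L ^ 2) := by positivity
        linarith
    _ = 1000000 * K ^ 2 * (M * L ^ 2) := by ring
    _ ≤ 2 ^ l := hn2.le

/-- Numerics for a gadget of size `K (D (l B + 2 ^ l))`. -/
theorem num_lr (K : ℕ) (hK : 1 ≤ K) : ∃ c : ℝ, 0 < c ∧ ∀ n m ρ r : ℕ, 1 ≤ n → n ≤ m → 1 ≤ ρ →
    1 ≤ r →
    (∀ D l B m' : ℕ, 1 ≤ D → 1 ≤ l → 1 ≤ B → m ≤ m' →
      (2 * D * l * (2 * B) + D * (2 ^ l * 2 ^ l)) * ρ ≤ m' → D < m' →
      K * (D * (l * B + 2 ^ l)) ≤ n → ∀ q : ℝ, 0 < q → q < 1 →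
      (2 - q ^ B) ^ (2 * D * l) ≤ r * (SS m' D (1 - q)) ^ 2) →
    ∀ M : ℝ, M = max ((m : ℝ) / n) ρ →
    exp (c * n / (ρ * M * (1 + log M) ^ 4)) ≤ 2 * r := by
  have hKr : (1 : ℝ) ≤ K := by exact_mod_cast hK
  have hK0 : (0 : ℝ) < K := by linarith
  obtain ⟨c, hc⟩ : ∃ c : ℝ, c = 1 / (88 * K * (1600 * K) * (2000000 * K ^ 2) * 2) := ⟨_, rfl⟩
  have hc0 : 0 < c := by rw [hc]; positivity
  refine ⟨c, hc0, ?_⟩
  intro n m ρ r hn hnm hρ hr H M hM
  have hn0 : (0 : ℝ) < n := by exact_mod_cast hn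
  have hm0 : (0 : ℝ) < m := by exact_mod_cast (by omega : 0 < m)
  have hρ1 : (1 : ℝ) ≤ ρ := by exact_mod_cast hρ
  have hr1 : (1 : ℝ) ≤ r := by exact_mod_cast hr
  have hMρ : (ρ : ℝ) ≤ M := by rw [hM]; exact le_max_right _ _
  have hMm : (m : ℝ) ≤ M * n := by
    rw [← div_le_iff₀ hn0, hM]
    exact le_max_left _ _
  have hM1 : 1 ≤ M := hρ1.trans hMρ
  have hM0 : 0 < M := by linarith
  have hlM : 0 ≤ log M := log_nonneg hM1
  obtain ⟨l, hl4, hl1, hl2, hl3⟩ := exists_l hKr hM1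
  set L := 1 + log M with hL
  have hL1 : 1 ≤ L := by linarith
  have hL0 : 0 < L := by linarith
  have hl0 : (0 : ℝ) < l := by exact_mod_cast (by omega : 0 < l)
  have h2l0 : (0 : ℝ) < 2 ^ l := by positivity
  obtain ⟨B, hB⟩ : ∃ B : ℕ, B = ρ * (22 * (l * 2 ^ l)) := ⟨_, rfl⟩
  have hB1 : 1 ≤ B := by
    rw [hB]
    have : 1 ≤ l * 2 ^ l := Nat.mul_pos (by omega) (by positivity)
    exact Nat.mul_pos hρ (by omega)
  have hBr : (B : ℝ) = ρ * (22 * (l * 2 ^ l)) := by rw [hB]; push_cast; ring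
  have h2B : 2 ^ l ≤ l * B := by
    rw [hB]
    have h1 : 2 ^ l ≤ l * 2 ^ l := Nat.le_mul_of_pos_left _ (by omega)
    have h2 : l * 2 ^ l ≤ 22 * (l * 2 ^ l) := by omega
    have h3 : 22 * (l * 2 ^ l) ≤ ρ * (22 * (l * 2 ^ l)) := Nat.le_mul_of_pos_left _ hρ
    have h4 : ρ * (22 * (l * 2 ^ l)) ≤ l * (ρ * (22 * (l * 2 ^ l))) :=
      Nat.le_mul_of_pos_left _ (by omega)
    omega
  -- the bound on the exponent
  have hl2' : (l : ℝ) ^ 2 ≤ 1600 * K * L ^ 2 := by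
    have h16 : (l : ℝ) ^ 2 ≤ (40 * sqrt K * L) ^ 2 := pow_le_pow_left₀ hl0.le hl3 2
    have h17 : (40 * sqrt K * L) ^ 2 = 1600 * K * L ^ 2 := by
      rw [mul_pow, mul_pow, sq_sqrt hK0.le]
      ring
    rwa [h17] at h16
  have hbig : 4 * K * (l * B) ≤ 88 * K * (1600 * K) * (2000000 * K ^ 2) * (ρ * M * L ^ 4) := by
    rw [hBr]
    calc 4 * (K : ℝ) * (l * (ρ * (22 * (l * 2 ^ l))))
        = 88 * K * ρ * (l : ℝ) ^ 2 * 2 ^ l := by ring
      _ ≤ 88 * K * ρ * (1600 * K * L ^ 2) * (2000000 * K ^ 2 * (M * L ^ 2)) := by gcongr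
      _ = 88 * K * (1600 * K) * (2000000 * K ^ 2) * (ρ * M * L ^ 4) := by ring
  have hden0 : 0 < (ρ : ℝ) * M * L ^ 4 := by positivity
  by_cases hbig2 : K * (l * B + 2 ^ l) ≤ n
  · obtain ⟨D, hD⟩ : ∃ D, D = n / (K * (l * B + 2 ^ l)) := ⟨_, rfl⟩
    have hpos : 0 < K * (l * B + 2 ^ l) := Nat.mul_pos hK (by positivity)
    have hD1 : 1 ≤ D := by
      rw [hD, Nat.le_div_iff_mul_le hpos, one_mul]
      exact hbig2
    have hDn : K * (D * (l * B + 2 ^ l)) ≤ n := by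
      have h1 : K * (l * B + 2 ^ l) * D ≤ n := by rw [hD]; exact Nat.mul_div_le n _
      calc K * (D * (l * B + 2 ^ l)) = K * (l * B + 2 ^ l) * D := by ring
        _ ≤ n := h1
    have hDn' : n ≤ 4 * K * (l * B) * D := by
      have h4 : n < K * (l * B + 2 ^ l) * (D + 1) := by
        rw [hD, mul_comm]
        exact Nat.lt_mul_of_div_lt (Nat.lt_succ_self _) hpos
      have h5 : K * (l * B + 2 ^ l) * (D + 1) ≤ K * (l * B + l * B) * (2 * D) :=
        Nat.mul_le_mul (Nat.mul_le_mul_left _ (by omega)) (by omega)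
      calc n ≤ K * (l * B + l * B) * (2 * D) := (h4.trans_le h5).le
        _ = 4 * K * (l * B) * D := by ring
    obtain ⟨m', hm'⟩ : ∃ m', m' = max m ((2 * D * l * (2 * B) + D * (2 ^ l * 2 ^ l)) * ρ) :=
      ⟨_, rfl⟩
    have hmm' : m ≤ m' := by rw [hm']; exact le_max_left _ _
    have hmm'' : (2 * D * l * (2 * B) + D * (2 ^ l * 2 ^ l)) * ρ ≤ m' := by
      rw [hm']; exact le_max_right _ _
    have hDm : D < m' := by
      refine lt_of_lt_of_le ?_ hmm''
      have h1 : 1 ≤ D * (2 ^ l * 2 ^ l) := Nat.mul_pos hD1 (by positivity)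
      have h2 : D ≤ D * (2 ^ l * 2 ^ l) := Nat.le_mul_of_pos_right _ (by positivity)
      have h3 : 0 < 2 * D * l * (2 * B) := by positivity
      have h4 : 2 * D * l * (2 * B) + D * (2 ^ l * 2 ^ l) ≤
          (2 * D * l * (2 * B) + D * (2 ^ l * 2 ^ l)) * ρ := Nat.le_mul_of_pos_right _ hρ
      omega
    have hm'0 : (0 : ℝ) < m' := by exact_mod_cast (by omega : 0 < m')
    have hD0 : (0 : ℝ) < D := by exact_mod_cast hD1
    have hB0 : (0 : ℝ) < B := by exact_mod_cast hB1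
    have he := Real.exp_one_lt_d9
    have he0 : 0 < exp 1 := exp_pos 1
    obtain ⟨hq0, hq1, hqs, hqx⟩ := root_props (a := (l : ℝ) + 1) (by linarith) hB1
    set q := exp (-(log ((l : ℝ) + 1) / B)) with hq
    have hlog : log ((l : ℝ) + 1) ≤ l := by
      have := Real.log_le_sub_one_of_pos (x := (l : ℝ) + 1) (by linarith)
      linarith
    have hlog0 : 0 ≤ log ((l : ℝ) + 1) := log_nonneg (by linarith)
    have hkey : 4 * exp 1 * m' * log ((l : ℝ) + 1) ≤ 2 ^ l * D * B := by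
      have h1 : 4 * exp 1 * m' * log ((l : ℝ) + 1) ≤ 4 * exp 1 * m' * l := by gcongr
      refine h1.trans ?_
      have h2 : (m' : ℝ) = max (m : ℝ) ((2 * D * l * (2 * B) + D * (2 ^ l * 2 ^ l)) * ρ) := by
        rw [hm']; push_cast; rfl
      rw [h2]
      rcases max_cases (m : ℝ) ((2 * D * l * (2 * B) + D * (2 ^ l * 2 ^ l)) * ρ) with
        ⟨h3, -⟩ | ⟨h3, -⟩
      · rw [h3]
        -- `m ≤ M n ≤ M 4 K l B D`
        have h4 : (n : ℝ) ≤ 4 * K * (l * B) * D := by exact_mod_cast hDn'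
        have h5 : (m : ℝ) ≤ M * (4 * K * (l * B) * D) := hMm.trans (by gcongr)
        calc 4 * exp 1 * m * l ≤ 4 * exp 1 * (M * (4 * K * (l * B) * D)) * l := by gcongr
          _ = 16 * exp 1 * (K * M * (l : ℝ) ^ 2 * (D * B)) := by ring
          _ ≤ 87 * (K * M * (l : ℝ) ^ 2 * (D * B)) := by
              have h6 : 16 * exp 1 ≤ 87 := by linarith
              exact mul_le_mul_of_nonneg_right h6 (by positivity)
          _ = (87 * K * M * (l : ℝ) ^ 2) * (D * B) := by ring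
          _ ≤ 2 ^ l * (D * B) := by gcongr
          _ = 2 ^ l * D * B := by ring
      · rw [h3]
        have h4 : 16 * exp 1 * (ρ * (l : ℝ) ^ 2) * 2 ≤ 2 ^ l := by
          calc 16 * exp 1 * (ρ * (l : ℝ) ^ 2) * 2 = 32 * exp 1 * (ρ * (l : ℝ) ^ 2) := by ring
            _ ≤ 87 * (ρ * (l : ℝ) ^ 2) := by
                have h6 : 32 * exp 1 ≤ 87 := by linarith
                exact mul_le_mul_of_nonneg_right h6 (by positivity)
            _ ≤ 87 * K * M * (l : ℝ) ^ 2 := by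
                have h7 : (ρ : ℝ) ≤ K * M := by nlinarith
                calc 87 * ((ρ : ℝ) * (l : ℝ) ^ 2) ≤ 87 * (K * M * (l : ℝ) ^ 2) := by gcongr
                  _ = 87 * K * M * (l : ℝ) ^ 2 := by ring
            _ ≤ 2 ^ l := hl1
        have h5 : 8 * exp 1 ≤ 22 := by linarith
        have h6 : 4 * exp 1 * ((2 * D * l * (2 * B) + D * (2 ^ l * 2 ^ l)) * ρ) * l =
            (16 * exp 1 * (ρ * (l : ℝ) ^ 2)) * (D * B) +
              (4 * exp 1) * (ρ * (l * 2 ^ l)) * (2 ^ l * D) := by ring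
        rw [h6]
        have h7 : (16 * exp 1 * (ρ * (l : ℝ) ^ 2)) * (D * B) ≤ 2 ^ l / 2 * (D * B) := by
          gcongr
          linarith
        have h8 : (4 * exp 1) * (ρ * (l * 2 ^ l)) * (2 ^ l * D) ≤ B / 2 * (2 ^ l * D) := by
          gcongr
          rw [hBr]
          have h9 : 0 ≤ (ρ : ℝ) * (l * 2 ^ l) := by positivity
          nlinarith
        calc (16 * exp 1 * (ρ * (l : ℝ) ^ 2)) * (D * B) +
              (4 * exp 1) * (ρ * (l * 2 ^ l)) * (2 ^ l * D)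
            ≤ 2 ^ l / 2 * (D * B) + B / 2 * (2 ^ l * D) := add_le_add h7 h8
          _ = 2 ^ l * D * B := by ring
    have hx : log ((l : ℝ) + 1) / B ≤ 2 ^ l * D / (4 * exp 1 * m') := by
      rw [div_le_div_iff₀ hB0 (by positivity)]
      calc log ((l : ℝ) + 1) * (4 * exp 1 * m') = 4 * exp 1 * m' * log ((l : ℝ) + 1) := by ring
        _ ≤ 2 ^ l * D * B := hkey
    have hmy : (D : ℝ) ≤ m' * (2 ^ l * D / (4 * exp 1 * m')) := by
      have h15 : (m' : ℝ) * (2 ^ l * D / (4 * exp 1 * m')) = D * (2 ^ l / (4 * exp 1)) := by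
        field_simp
      rw [h15]
      have h16 : (16 : ℝ) ≤ 2 ^ l := by
        calc (16 : ℝ) = 2 ^ 4 := by norm_num
          _ ≤ 2 ^ l := pow_le_pow_right₀ (by norm_num) hl4
      have h17 : 1 ≤ (2 : ℝ) ^ l / (4 * exp 1) := by
        rw [le_div_iff₀ (by positivity)]
        linarith
      nlinarith
    have hS := SS_le (x := 1 - q) hD1 hDm (by linarith) (hqx.trans hx) hmy
    have h18 : exp 1 * (m' * (2 ^ l * D / (4 * exp 1 * m'))) / D = 2 ^ l / 4 := by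
      field_simp
    rw [h18] at hS
    have hS0 := SS_nonneg m' D (x := 1 - q) (by linarith)
    have hmain := H D l B m' hD1 (by omega) hB1 hmm' hmm'' hDm hDn q hq0 hq1
    rw [hqs] at hmain
    have h19 : ((2 : ℝ) ^ l / 2) ^ (2 * D) ≤ (2 - 1 / ((l : ℝ) + 1)) ^ (2 * D * l) := by
      rw [mul_comm (2 * D) l, pow_mul _ l (2 * D)]
      exact pow_le_pow_left₀ (by positivity) (pow_half_le l) (2 * D)
    have h20 : (SS m' D (1 - q)) ^ 2 ≤ ((2 : ℝ) ^ l / 4) ^ (2 * D) := by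
      rw [mul_comm 2 D, pow_mul]
      exact pow_le_pow_left₀ hS0 hS 2
    have h21 : (2 : ℝ) ^ (2 * D) ≤ r := by
      have h22 : (2 : ℝ) ^ (2 * D) * ((2 : ℝ) ^ l / 4) ^ (2 * D) ≤
          r * ((2 : ℝ) ^ l / 4) ^ (2 * D) := by
        rw [← mul_pow]
        have h23 : (2 : ℝ) * (2 ^ l / 4) = 2 ^ l / 2 := by ring
        rw [h23]
        refine (h19.trans hmain).trans ?_
        gcongr
      exact le_of_mul_le_mul_right h22 (by positivity)
    have h24 : c * n / (ρ * M * L ^ 4) ≤ D := by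
      rw [div_le_iff₀ hden0]
      have h25 : (n : ℝ) ≤ 4 * K * (l * B) * D := by exact_mod_cast hDn'
      have h26 : (n : ℝ) ≤ 88 * K * (1600 * K) * (2000000 * K ^ 2) * (ρ * M * L ^ 4) * D :=
        h25.trans (by gcongr)
      rw [hc]
      rw [div_mul_eq_mul_div, one_mul, div_le_iff₀ (by positivity)]
      have h27 : 0 ≤ 88 * (K : ℝ) * (1600 * K) * (2000000 * K ^ 2) * (ρ * M * L ^ 4) * D := by
        positivity
      linarith
    calc exp (c * n / (ρ * M * L ^ 4)) ≤ exp (D : ℝ) := exp_le_exp.2 h24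
      _ = exp 1 ^ D := by rw [← exp_nat_mul, mul_one]
      _ ≤ 4 ^ D := pow_le_pow_left₀ he0.le (by linarith) _
      _ = (2 : ℝ) ^ (2 * D) := by
          rw [pow_mul]
          norm_num
      _ ≤ r := h21
      _ ≤ 2 * r := by linarith
  · push Not at hbig2
    have h1 : (n : ℝ) < K * (l * B + 2 ^ l) := by exact_mod_cast hbig2
    have h2 : ((2 : ℝ) ^ l) ≤ l * B := by exact_mod_cast h2B
    have h3 : (n : ℝ) ≤ 4 * K * (l * B) := by
      have h4 : (K : ℝ) * (l * B + 2 ^ l) ≤ K * (l * B + l * B) := by gcongr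
      have h5 : 0 ≤ (K : ℝ) * (l * B) := by positivity
      nlinarith
    have h4 : c * n / (ρ * M * L ^ 4) ≤ 1 / 2 := by
      rw [div_le_iff₀ hden0, hc, div_mul_eq_mul_div, one_mul, div_le_iff₀ (by positivity)]
      have h5 := h3.trans hbig
      linarith
    have h6 := (exp_le_exp.2 h4).trans exp_half_le
    linarith

end Pool.Agent.Helper72.LR
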