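import Pool.Agent.Helper76.CPF.Pf
import Pool.Agent.Helper41.SDet.Red

/-!
# Determinants of any size in which every variable has low rank: the restriction step
-/

set_option autoImplicit false
set_option linter.unusedSectionVars false

namespace Pool.Agent.Helper72.LR

open Finset MvPolynomial Pool.Agent.Helper76.CDET

/-- The rank does not increase under an injective map to a field. -/
theorem rank_map_le {R L : Type*} [CommRing R] [IsDomain R] [Field L] {s t : ℕ} (j : R →+* L)
    (hj : Function.Injective j) (B : Matrix (Fin s) (Fin t) R) : (B.map j).rank ≤ B.rank := by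
  classical
  rw [Matrix.rank_eq_finrank_span_cols, Matrix.rank_eq_finrank_span_cols]
  obtain ⟨κ, a, ha, hspan, hli⟩ := exists_linearIndependent' L (fun i : Fin t => (B.map j).col i)
  have hfin : Finite κ := Finite.of_injective a ha
  have := Fintype.ofFinite κ
  have hspan' : Submodule.span L (Set.range (B.map j).col) =
      Submodule.span L (Set.range ((fun i : Fin t => (B.map j).col i) ∘ a)) := hspan.symm
  rw [hspan', finrank_span_eq_card hli]
  have h3 : LinearIndependent R (fun i : κ =>
      (⟨B.col (a i), Submodule.subset_span ⟨a i, rfl⟩⟩ :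
        Submodule.span R (Set.range B.col))) := by
    rw [Fintype.linearIndependent_iff]
    intro g hg i
    rw [Fintype.linearIndependent_iff] at hli
    have h4 : ∑ i, j (g i) • ((fun i : Fin t => (B.map j).col i) ∘ a) i = 0 := by
      funext x
      have h5 := congrArg (fun w : Submodule.span R (Set.range B.col) => (w : Fin s → R) x) hg
      simp only [Submodule.coe_sum, Submodule.coe_smul, Finset.sum_apply, Pi.smul_apply,
        smul_eq_mul, Submodule.coe_zero, Pi.zero_apply] at h5
      simp only [Finset.sum_apply, Pi.smul_apply, smul_eq_mul, Function.comp_apply,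
        Pi.zero_apply, Matrix.col_apply, Matrix.map_apply]
      have h6 := congrArg j h5
      rw [map_sum, map_zero] at h6
      rw [← h6]
      refine Finset.sum_congr rfl fun i _ => ?_
      rw [map_mul]
      rfl
    have h7 := hli (fun i => j (g i)) h4 i
    exact hj (h7.trans (map_zero j).symm)
  have : Module.Finite R (Submodule.span R (Set.range B.col)) :=
    Module.Finite.span_of_finite R (Set.finite_range _)
  exact h3.fintype_card_le_finrank

variable {F : Type} [Field F] {V Ya Xt Yt : Type}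

/-- A matrix of polynomials of degree at most one in the variables `V`. -/
noncomputable def affM [Fintype V] {s : ℕ} (A : Matrix (Fin s) (Fin s) (MvPolynomial Ya F))
    (B : V → Matrix (Fin s) (Fin s) (MvPolynomial Ya F)) :
    Matrix (Fin s) (Fin s) (MvPolynomial (V ⊕ Ya) F) :=
  A.map (rename Sum.inr) +
    ∑ e, (X (Sum.inl e) : MvPolynomial (V ⊕ Ya) F) • (B e).map (rename Sum.inr)

/-- the embedding of the auxiliary polynomials -/
noncomputable def jA (F V Ya : Type) [Field F] : MvPolynomial Ya F →+* Lf F (V ⊕ Ya) :=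
  (algebraMap (MvPolynomial (V ⊕ Ya) F) (Lf F (V ⊕ Ya))).comp
    (rename Sum.inr : MvPolynomial Ya F →ₐ[F] MvPolynomial (V ⊕ Ya) F).toRingHom

theorem jA_injective : Function.Injective (jA F V Ya) := by
  intro a b h
  exact rename_injective _ Sum.inr_injective
    (IsFractionRing.injective (MvPolynomial (V ⊕ Ya) F) (Lf F (V ⊕ Ya)) h)

theorem Psi_rename_inr (κ : V → Option (Option (Xt ⊕ Yt))) (a : MvPolynomial Ya F) :
    Psi F (ext Ya κ) (rename Sum.inr a) = C (jA F V Ya a) := by
  have h : (Psi F (ext Ya κ)).comp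
      (rename Sum.inr : MvPolynomial Ya F →ₐ[F] MvPolynomial (V ⊕ Ya) F).toRingHom =
      (C : Lf F (V ⊕ Ya) →+* MvPolynomial (Xt ⊕ Yt) (Lf F (V ⊕ Ya))).comp (jA F V Ya) := by
    refine MvPolynomial.ringHom_ext (fun r => ?_) fun y => ?_
    · simp only [RingHom.comp_apply, AlgHom.toRingHom_eq_coe, RingHom.coe_coe, rename_C, jA, Psi,
        coe_eval₂Hom, eval₂_C]
    · simp only [RingHom.comp_apply, AlgHom.toRingHom_eq_coe, RingHom.coe_coe, rename_X, jA, Psi,
        coe_eval₂Hom, eval₂_X, pv, av, Pool.Agent.Helper76.CDET.ext, Sum.elim_inr]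
      rfl
  exact congrArg (fun φ : MvPolynomial Ya F →+* MvPolynomial (Xt ⊕ Yt) (Lf F (V ⊕ Ya)) => φ a) h

theorem Psi_X_inl (κ : V → Option (Option (Xt ⊕ Yt))) (e : V) :
    Psi F (ext Ya κ) (X (Sum.inl e) : MvPolynomial (V ⊕ Ya) F) =
      match κ e with
      | none => 0
      | some none => C (algebraMap (MvPolynomial (V ⊕ Ya) F) (Lf F (V ⊕ Ya)) (X (Sum.inl e)))
      | some (some q) => X q := by
  rcases h : κ e with _ | _ | q
  · simp [Psi, pv, av, Pool.Agent.Helper76.CDET.ext, h]
  · simp [Psi, pv, av, Pool.Agent.Helper76.CDET.ext, h]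
  · simp [Psi, pv, av, Pool.Agent.Helper76.CDET.ext, h]
    rfl

/-- the constant part after the restriction -/
noncomputable def cA [Fintype V] (κ : V → Option (Option (Xt ⊕ Yt))) {s : ℕ}
    (A : Matrix (Fin s) (Fin s) (MvPolynomial Ya F))
    (B : V → Matrix (Fin s) (Fin s) (MvPolynomial Ya F)) :
    Matrix (Fin s) (Fin s) (Lf F (V ⊕ Ya)) := open Classical in
  A.map (jA F V Ya) + ∑ e, if κ e = some none then
    (algebraMap (MvPolynomial (V ⊕ Ya) F) (Lf F (V ⊕ Ya)) (X (Sum.inl e))) •
      (B e).map (jA F V Ya) else 0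

/-- the coefficient of a variable after the restriction -/
noncomputable def cB [Fintype V] (κ : V → Option (Option (Xt ⊕ Yt))) {s : ℕ}
    (B : V → Matrix (Fin s) (Fin s) (MvPolynomial Ya F)) (q : Xt ⊕ Yt) :
    Matrix (Fin s) (Fin s) (Lf F (V ⊕ Ya)) := open Classical in
  ∑ e, if κ e = some (some q) then (B e).map (jA F V Ya) else 0

theorem rank_cB_le [Fintype V] (κ : V → Option (Option (Xt ⊕ Yt)))
    (hκ : ∀ e e' v, κ e = some (some v) → κ e' = some (some v) → e = e') {s ρ : ℕ}
    (B : V → Matrix (Fin s) (Fin s) (MvPolynomial Ya F)) (hB : ∀ e, (B e).rank ≤ ρ)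
    (q : Xt ⊕ Yt) : (cB κ B q).rank ≤ ρ := by
  classical
  unfold cB
  by_cases h : ∃ e, κ e = some (some q)
  · obtain ⟨e, he⟩ := h
    rw [Finset.sum_eq_single e]
    · rw [if_pos he]
      exact (rank_map_le _ jA_injective _).trans (hB e)
    · intro e' _ hne
      exact if_neg fun h' => hne (hκ _ _ _ h' he)
    · intro h'
      exact absurd (Finset.mem_univ _) h'
  · push Not at h
    rw [Finset.sum_eq_zero fun e _ => if_neg (h e), Matrix.rank_zero]
    exact Nat.zero_le _

theorem map_Psi_affM [Fintype V] [Fintype Xt] [Fintype Yt]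
    (κ : V → Option (Option (Xt ⊕ Yt))) {s : ℕ}
    (A : Matrix (Fin s) (Fin s) (MvPolynomial Ya F))
    (B : V → Matrix (Fin s) (Fin s) (MvPolynomial Ya F)) :
    (affM A B).map (Psi F (ext Ya κ)) =
      (cA κ A B).map (C : Lf F (V ⊕ Ya) → MvPolynomial (Xt ⊕ Yt) (Lf F (V ⊕ Ya))) +
        ∑ q, (X q : MvPolynomial (Xt ⊕ Yt) (Lf F (V ⊕ Ya))) • (cB κ B q).map
          (C : Lf F (V ⊕ Ya) → MvPolynomial (Xt ⊕ Yt) (Lf F (V ⊕ Ya))) := by
  classical
  ext1 a b
  simp only [affM, cA, cB, Matrix.map_apply, Matrix.add_apply, Matrix.sum_apply,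
    Matrix.smul_apply, smul_eq_mul, map_add, map_sum, map_mul, Psi_rename_inr]
  rw [add_assoc]
  congr 1
  have h1 : ∀ q : Xt ⊕ Yt, (X q : MvPolynomial (Xt ⊕ Yt) (Lf F (V ⊕ Ya))) *
      ∑ e, (C ((if κ e = some (some q) then (B e).map (jA F V Ya) else 0 :
        Matrix (Fin s) (Fin s) (Lf F (V ⊕ Ya))) a b)) =
      ∑ e, if κ e = some (some q) then X q * C (jA F V Ya (B e a b)) else 0 := by
    intro q
    rw [Finset.mul_sum]
    refine Finset.sum_congr rfl fun e _ => ?_
    split_ifs <;> simp
  rw [Finset.sum_congr rfl fun q _ => h1 q, Finset.sum_comm, ← Finset.sum_add_distrib]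
  refine Finset.sum_congr rfl fun e _ => ?_
  rw [Psi_X_inl]
  rcases h : κ e with _ | _ | q
  · simp
  · simp
  · simp only [reduceCtorEq, if_false, Matrix.zero_apply, map_zero, zero_add,
      Option.some.injEq]
    rw [Finset.sum_eq_single q]
    · simp
    · intro q' _ hne
      exact if_neg fun h' => hne h'.symm
    · intro h'
      exact absurd (Finset.mem_univ _) h'

/-- A determinant of any size with low rank in every variable becomes a determinant of bounded
size. -/
theorem exists_mat_lr [Fintype V] [Fintype Xt] [Fintype Yt]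
    (κ : V → Option (Option (Xt ⊕ Yt)))
    (hκ : ∀ e e' v, κ e = some (some v) → κ e' = some (some v) → e = e') {s ρ m : ℕ}
    (A : Matrix (Fin s) (Fin s) (MvPolynomial Ya F))
    (B : V → Matrix (Fin s) (Fin s) (MvPolynomial Ya F)) (hB : ∀ e, (B e).rank ≤ ρ)
    (hm : (Fintype.card Xt + Fintype.card Yt) * ρ ≤ m) (h1 : 1 ≤ m) :
    ∃ A' : Matrix (Fin m) (Fin m) (MvPolynomial (Xt ⊕ Yt) (Lf F (V ⊕ Ya))),
      (∀ p q, (A' p q).totalDegree ≤ 1) ∧ A'.det = Psi F (ext Ya κ) (affM A B).det := by
  classical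
  obtain ⟨L, hL, hdet⟩ := Pool.Agent.Helper41.SD.det_low_rank_pad (cA κ A B) (cB κ B)
    (rank_cB_le κ hκ B hB) (M := m) (by rw [Fintype.card_sum]; exact hm) h1
  refine ⟨L, hL, ?_⟩
  rw [← hdet, RingHom.map_det, RingHom.mapMatrix_apply, map_Psi_affM]

/-- A determinant of bounded size. -/
theorem exists_mat_small [Fintype V] [Fintype Xt] [Fintype Yt]
    (κ : V → Option (Option (Xt ⊕ Yt))) {s m : ℕ}
    (A : Matrix (Fin s) (Fin s) (MvPolynomial Ya F))
    (B : V → Matrix (Fin s) (Fin s) (MvPolynomial Ya F)) (hs : s ≤ m) :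
    ∃ A' : Matrix (Fin m) (Fin m) (MvPolynomial (Xt ⊕ Yt) (Lf F (V ⊕ Ya))),
      (∀ p q, (A' p q).totalDegree ≤ 1) ∧ A'.det = Psi F (ext Ya κ) (affM A B).det := by
  classical
  rw [RingHom.map_det, RingHom.mapMatrix_apply, map_Psi_affM]
  refine Pool.Agent.SDet.exists_pad hs _ fun p q => ?_
  rw [Matrix.add_apply, Matrix.map_apply, Matrix.sum_apply]
  refine (totalDegree_add _ _).trans (max_le ?_ ?_)
  · rw [totalDegree_C]
    exact Nat.zero_le _
  · refine (totalDegree_finsetSum_le fun q' _ => ?_)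
    rw [Matrix.smul_apply, Matrix.map_apply, smul_eq_mul]
    refine (totalDegree_mul _ _).trans ?_
    rw [totalDegree_C, add_zero]
    exact (totalDegree_X _).le

end Pool.Agent.Helper72.LR
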